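import Mathlib
import Pool.Agent.H361R2.InfMain
import Pool.Agent.H361R2.InfB3
import Pool.Agent.H361R2.InfB4
import Pool.Agent.H361R2.InfB5

/-! Infinite sequences of linear forms divided into classes: for arbitrary finite sets `S 0, S 1, …` of classes,
a positive proportion of the classes of `S j` contains forms of one infinite exact pattern, for infinitely many `j`. -/

set_option autoImplicit false

namespace Pool.Agent.U974.TR

open Finset Filter Topology
open Pool.Agent.H361R2.Inf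

/-- the set `I` meets the class `t` -/
def hits (off : ℕ → ℕ) (I : Set ℕ) (t : ℕ) : Prop := ∃ i ∈ Ico (off t) (off (t + 1)), i ∈ I

open Classical in
/-- for infinitely many `j` many of the classes in `S j` meet `I` -/
def PI (S : ℕ → Finset ℕ) (off : ℕ → ℕ) (I : Set ℕ) : Prop :=
  ∃ᶠ j in atTop, (S j).card ≤ 800 * ((S j).filter (fun t => hits off I t)).card

open Classical in
theorem sum_le' {m : Set ℕ → ℝ} (hm : FMeas m) (A : ℕ → Set ℕ) (S : Finset ℕ) (r : ℕ) (B : Set ℕ)
    (h : ∀ n ∈ B, ∀ F : Finset ℕ, F ⊆ S → (∀ t ∈ F, n ∈ A t) → F.card ≤ r) :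
    ∑ t ∈ S, m (B ∩ A t) ≤ r * m B := by
  have h1 := B3.sum_le hm (fun t => if t ∈ S then A t else ∅) (S.sup id + 1) r B (by
    intro n hn F hF hFA
    refine h n hn F (fun t ht => ?_) (fun t ht => ?_)
    · by_contra htS
      have := hFA t ht
      rw [if_neg htS] at this
      exact this
    · have := hFA t ht
      by_cases htS : t ∈ S
      · rwa [if_pos htS] at this
      · rw [if_neg htS] at this
        exact absurd this (Set.notMem_empty n))
  refine le_trans (le_of_eq ?_) h1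
  have hsub : S ⊆ range (S.sup id + 1) := fun t ht =>
    Finset.mem_range.2 (Nat.lt_succ_of_le (Finset.le_sup (f := id) ht))
  rw [← Finset.sum_subset hsub]
  · exact Finset.sum_congr rfl fun t ht => by rw [if_pos ht]
  · intro t _ ht
    rw [if_neg ht, Set.inter_empty]
    exact T1.empty hm

open Classical in
theorem hcomb (S : ℕ → Finset ℕ) (hS : ∀ j, (S j).Nonempty) (off : ℕ → ℕ) (hoff : StrictMono off) :
    ∀ (m : Set ℕ → ℝ), FMeas m → m Set.univ ≤ 2 → ∀ (E : ℕ → Set ℕ),
      (∀ t, (1 / 200 : ℝ) ≤ m {x | ∃ i ∈ Ico (off t) (off (t + 1)), x ∈ E i}) →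
      ∃ I : Set ℕ, PI S off I ∧ ∀ N : ℕ, 0 < m {x | ∀ i < N, (x ∈ E i ↔ i ∈ I)} := by
  intro m hm hm2 E hE
  refine comb2 m hm E (fun j => off ((S j).sup id + 1))
    (fun j => {I | (S j).card ≤ 800 * ((S j).filter (fun t => hits off I t)).card}) ?_
    (1 / 400) (by norm_num) ?_
  · intro j I I' hII
    have e : (S j).filter (fun t => hits off I t) = (S j).filter (fun t => hits off I' t) := by
      ext t
      simp only [Finset.mem_filter]
      refine and_congr_right fun ht => ?_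
      have h0 : t ≤ (S j).sup id := Finset.le_sup (f := id) ht
      have hle : off (t + 1) ≤ off ((S j).sup id + 1) := hoff.monotone (by omega)
      constructor
      · rintro ⟨i, hi, h⟩
        rw [Finset.mem_Ico] at hi
        exact ⟨i, Finset.mem_Ico.2 hi, (hII i (by omega)).mp h⟩
      · rintro ⟨i, hi, h⟩
        rw [Finset.mem_Ico] at hi
        exact ⟨i, Finset.mem_Ico.2 hi, (hII i (by omega)).mpr h⟩
    simp only [Set.mem_ofPred_eq, e]
  · intro j
    set n := (S j).card with hn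
    have hnr : (1 : ℝ) ≤ n := by exact_mod_cast (hS j).card_pos
    set A : ℕ → Set ℕ := fun t => {x | ∃ i ∈ Ico (off t) (off (t + 1)), x ∈ E i} with hA
    set G : Set ℕ := {x | {i | x ∈ E i} ∈ {I : Set ℕ | n ≤ 800 *
      ((S j).filter (fun t => hits off I t)).card}} with hG
    have hGmem : ∀ x, x ∉ G → ∀ F : Finset ℕ, F ⊆ S j → (∀ a ∈ F, x ∈ A a) →
        800 * F.card < n := by
      intro x hx F hF hFA
      simp only [hG, Set.mem_ofPred_eq, not_le] at hx
      refine lt_of_le_of_lt (Nat.mul_le_mul_left _ (Finset.card_le_card ?_)) hx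
      intro a ha
      simp only [Finset.mem_filter]
      exact ⟨hF ha, hFA a ha⟩
    have hsplit : ∀ a, m (A a) = m (Gᶜ ∩ A a) + m (G ∩ A a) := by
      intro a
      rw [← hm.add]
      · congr 1
        ext x
        simp only [Set.mem_inter_iff, Set.mem_union, Set.mem_compl_iff]
        tauto
      · rw [Set.disjoint_left]
        rintro x ⟨h1, _⟩ ⟨h2, _⟩
        exact h1 h2
    have h1 : ∑ a ∈ S j, m (Gᶜ ∩ A a) ≤ ((n / 800 : ℕ) : ℝ) * m Gᶜ := by
      apply sum_le' hm A
      intro x hx F hF hFA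
      have := hGmem x hx F hF hFA
      omega
    have h2 : ∑ a ∈ S j, m (G ∩ A a) ≤ n * m G := by
      calc ∑ a ∈ S j, m (G ∩ A a) ≤ ∑ a ∈ S j, m G :=
            Finset.sum_le_sum fun a _ => T1.mono hm Set.inter_subset_left
        _ = n * m G := by rw [Finset.sum_const, nsmul_eq_mul]
    have h3 : (n : ℝ) * (1 / 200) ≤ ∑ a ∈ S j, m (A a) := by
      calc (n : ℝ) * (1 / 200) = ∑ a ∈ S j, (1 / 200 : ℝ) := by
            rw [Finset.sum_const, nsmul_eq_mul]
        _ ≤ _ := Finset.sum_le_sum fun a _ => hE a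
    have h4 : ((n / 800 : ℕ) : ℝ) * m Gᶜ ≤ (n : ℝ) / 800 * 2 := by
      have hfl : ((n / 800 : ℕ) : ℝ) ≤ (n : ℝ) / 800 := by
        have := @Nat.cast_div_le ℝ _ _ _ n 800
        simpa using this
      have hGc : m Gᶜ ≤ 2 := (T1.mono hm (Set.subset_univ _)).trans hm2
      exact mul_le_mul hfl hGc (hm.nonneg _) (by positivity)
    have h5 : ∑ a ∈ S j, m (A a) = ∑ a ∈ S j, m (Gᶜ ∩ A a) + ∑ a ∈ S j, m (G ∩ A a) := by
      rw [← Finset.sum_add_distrib]
      exact Finset.sum_congr rfl fun a _ => hsplit a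
    have h6 : (n : ℝ) * (1 / 200) ≤ (n : ℝ) / 800 * 2 + n * m G := by linarith
    change 1 / 400 ≤ m G
    have h7 : (n : ℝ) * (1 / 400) ≤ n * m G := by linarith
    exact le_of_mul_le_mul_left h7 (by linarith)

/-- **the pattern theorem for classes** -/
theorem classes : ∃ off : ℕ → ℕ, StrictMono off ∧ off 0 = 0 ∧ ∀ S : ℕ → Finset ℕ, (∀ j, (S j).Nonempty) →
    ∀ (A B : ℕ → ℤ), (∀ i, 1 ≤ A i) → (∀ i, IsCoprime (A i) (B i)) →
      Function.Injective (fun i => (A i, B i)) →
      (∀ p : ℕ, p.Prime → ∃ x : ℕ, ∀ i, ¬ (p : ℤ) ∣ A i * x + B i) →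
      ∃ I : Set ℕ, PI S off I ∧ ∀ T : Finset (ℤ × ℤ), (∀ f ∈ T, 1 ≤ f.1) →
        {x : ℕ | ∀ f ∈ T, (Nat.Prime (f.1 * x + f.2).toNat ↔ ∃ i ∈ I, f = (A i, B i))}.Infinite := by
  obtain ⟨off, hoff, h0, hBM⟩ := exists_blockMeas
  refine ⟨off, hoff, h0, fun S hS A B hA hcop hinj hadm => ?_⟩
  refine exact_seq_of (PI S off) off ?_ A B hA hcop hinj hadm
  intro A B hA hne W r hW hWp hc hcop
  exact inf_class_of_combP (PI S off) off hoff h0 (1 / 200) (by norm_num) (hcomb S hS off hoff) hBM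
    A B hA hne W r hW hWp hc hcop

end Pool.Agent.U974.TR
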